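import Pool.Agent.H36.NX.Push
import Pool.Agent.H36.NX.TensHom

/-!
# TB : products of left and right dg modules, and the Koszul induction for perfect bimodules

MP_eadf0f_ag, block E, module E-ses. `LM A`, `RM A` are the unital left and right dg modules, `tB X Y` the
bimodule `X ⊗ Y`. `PF_grid`: if the sequences `0 → X m → X (m+1)² → X (m+2) → 0` and
`0 → Y n → Y (n+1)² → Y (n+2) → 0` are exact for all integers `m`, `n` and `X m ⊗ Y n` is perfect for
`m ∈ {a, a+1}` and `n ∈ {b, b+1}`, then `X m ⊗ Y n` is perfect for all `m`, `n`.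
-/

set_option autoImplicit false

open NC
open scoped TensorProduct

noncomputable section

namespace EE

namespace Ses

variable {k : Type} [Field k]

/-- unital left dg modules -/
structure LM (A : DGA k) where
  N : SD k
  l : LA A N
  one : ∀ x, l.act 1 x = x

/-- unital right dg modules -/
structure RM (A : DGA k) where
  N : SD k
  r : RA A N
  one : ∀ x, r.act x 1 = x

variable {A : DGA k}

/-- morphisms of left modules -/
structure LM.Hom (X Y : LM A) where
  h : SD.Hom X.N Y.N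
  is : X.l.IsHom Y.l h

/-- morphisms of right modules -/
structure RM.Hom (X Y : RM A) where
  h : SD.Hom X.N Y.N
  is : X.r.IsHom Y.r h

/-- the product of a left and of a right module -/
def tB (X : LM A) (Y : RM A) : BMod A A where
  N := X.N.tens Y.N
  b := Bi.tensLR X.l Y.r
  one_l := fun v => by
    refine tens_ext (f := (X.l.tensL Y.N).act 1) (g := LinearMap.id) (fun x y => ?_) v
    rw [LA.tensL_act, X.one]
    rfl
  r_one := fun v => by
    refine tens_ext (f := (Y.r.tensR X.N).act.flip 1) (g := LinearMap.id) (fun x y => ?_) v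
    change (Y.r.tensR X.N).act (x ⊗ₜ[k] y) 1 = _
    rw [RA.tensR_act, Y.one]
    rfl

/-- functoriality in the left module -/
def tL {X X' : LM A} (f : LM.Hom X X') (Y : RM A) : BMod.Hom (tB X Y) (tB X' Y) where
  toHom := f.h.tens (SD.Hom.id Y.N)
  isHom := H36.NX.isHom_tens f.h (SD.Hom.id Y.N) f.is (fun _ _ => rfl)

/-- functoriality in the right module -/
def tR (X : LM A) {Y Y' : RM A} (g : RM.Hom Y Y') : BMod.Hom (tB X Y) (tB X Y') where
  toHom := (SD.Hom.id X.N).tens g.h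
  isHom := H36.NX.isHom_tens (SD.Hom.id X.N) g.h (fun _ _ => rfl) g.is

/-! ### products -/

/-- the product of two left modules -/
def LM.prod (X Y : LM A) : LM A where
  N := X.N.prod Y.N
  l :=
    { act := LinearMap.mk₂ k (fun r (v : X.N.V × Y.N.V) =>
          ((X.l.act r v.1, Y.l.act r v.2) : X.N.V × Y.N.V))
        (fun _ _ _ => Prod.ext (by simp) (by simp)) (fun _ _ _ => Prod.ext (by simp) (by simp))
        (fun r v v' => Prod.ext (map_add _ _ _) (map_add _ _ _))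
        (fun c r v => Prod.ext (map_smul _ _ _) (map_smul _ _ _))
      mul_act := fun r s v => Prod.ext (X.l.mul_act r s v.1) (Y.l.mul_act r s v.2)
      P_act := fun r v => Prod.ext (X.l.P_act r v.1) (Y.l.P_act r v.2)
      D_act := fun r v => Prod.ext (X.l.D_act r v.1) (Y.l.D_act r v.2) }
  one := fun v => Prod.ext (X.one v.1) (Y.one v.2)

/-- the product of two right modules -/
def RM.prod (X Y : RM A) : RM A where
  N := X.N.prod Y.N
  r :=
    { act := LinearMap.mk₂ k (fun (v : X.N.V × Y.N.V) b =>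
          ((X.r.act v.1 b, Y.r.act v.2 b) : X.N.V × Y.N.V))
        (fun v v' b => Prod.ext
          (by change X.r.act (v.1 + v'.1) b = _; rw [map_add]; rfl)
          (by change Y.r.act (v.2 + v'.2) b = _; rw [map_add]; rfl))
        (fun c v b => Prod.ext
          (by change X.r.act (c • v.1) b = _; rw [map_smul]; rfl)
          (by change Y.r.act (c • v.2) b = _; rw [map_smul]; rfl))
        (fun v b b' => Prod.ext (map_add _ _ _) (map_add _ _ _))
        (fun c v b => Prod.ext (map_smul _ _ _) (map_smul _ _ _))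
      act_mul := fun v a b => Prod.ext (X.r.act_mul v.1 a b) (Y.r.act_mul v.2 a b)
      P_act := fun v a => Prod.ext (X.r.P_act v.1 a) (Y.r.P_act v.2 a)
      D_act := fun v a => Prod.ext (X.r.D_act v.1 a) (Y.r.D_act v.2 a) }
  one := fun v => Prod.ext (X.one v.1) (Y.one v.2)

theorem LM.prod_act (X Y : LM A) (r : A.V) (v : X.N.V × Y.N.V) :
    (X.prod Y).l.act r v = ((X.l.act r v.1, Y.l.act r v.2) : X.N.V × Y.N.V) := rfl

theorem RM.prod_act (X Y : RM A) (v : X.N.V × Y.N.V) (r : A.V) :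
    (X.prod Y).r.act v r = ((X.r.act v.1 r, Y.r.act v.2 r) : X.N.V × Y.N.V) := rfl

private def inlH (X Y : SD k) : SD.Hom X (X.prod Y) where
  f := LinearMap.inl k X.V Y.V
  D := fun _ => Prod.ext rfl (map_zero Y.D).symm
  P := fun _ => Prod.ext rfl (map_zero Y.P).symm

private def sndH (X Y : SD k) : SD.Hom (X.prod Y) Y where
  f := LinearMap.snd k X.V Y.V
  D := fun _ => rfl
  P := fun _ => rfl

private theorem inl_snd (X Y : SD k) : SD.SES (inlH X Y) (sndH X Y) where
  inj := fun _ h => congrArg Prod.fst h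
  surj := fun z => ⟨(0, z), rfl⟩
  zero := fun _ => rfl
  exact := by
    rintro ⟨x, y⟩ hy
    have hy' : y = 0 := hy
    subst hy'
    exact ⟨x, rfl⟩

private def LM.inl (X Y : LM A) : LM.Hom X (X.prod Y) where
  h := inlH X.N Y.N
  is := fun a _ => Prod.ext rfl (map_zero (Y.l.act a)).symm

private def LM.snd (X Y : LM A) : LM.Hom (X.prod Y) Y where
  h := sndH X.N Y.N
  is := fun _ _ => rfl

private def RM.inl (X Y : RM A) : RM.Hom X (X.prod Y) where
  h := inlH X.N Y.N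
  is := fun _ a => Prod.ext rfl (by
    change (0 : Y.N.V) = Y.r.act 0 a
    rw [map_zero, LinearMap.zero_apply])

private def RM.snd (X Y : RM A) : RM.Hom (X.prod Y) Y where
  h := sndH X.N Y.N
  is := fun _ _ => rfl

theorem PF_prodL (X X' : LM A) (Y : RM A) (h : PF A (tB X Y)) (h' : PF A (tB X' Y)) :
    PF A (tB (X.prod X') Y) :=
  PF.ses2 (tL (LM.inl X X') Y) (tL (LM.snd X X') Y)
    (H36.NX.ses_tensR (inl_snd X.N X'.N) Y.N) h h'

theorem PF_prodR (X : LM A) (Y Y' : RM A) (h : PF A (tB X Y)) (h' : PF A (tB X Y')) :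
    PF A (tB X (Y.prod Y')) :=
  PF.ses2 (tR X (RM.inl Y Y')) (tR X (RM.snd Y Y'))
    (H36.NX.ses_tensL (inl_snd Y.N Y'.N) X.N) h h'

/-! ### the Koszul induction -/

/-- Koszul sequences of left modules -/
structure KzL (X : ℤ → LM A) where
  f : ∀ n, LM.Hom (X n) ((X (n + 1)).prod (X (n + 1)))
  g : ∀ n, LM.Hom ((X n).prod (X n)) (X (n + 1))
  ses : ∀ n, SD.SES (f n).h (g (n + 1)).h

/-- Koszul sequences of right modules -/
structure KzR (X : ℤ → RM A) where
  f : ∀ n, RM.Hom (X n) ((X (n + 1)).prod (X (n + 1)))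
  g : ∀ n, RM.Hom ((X n).prod (X n)) (X (n + 1))
  ses : ∀ n, SD.SES (f n).h (g (n + 1)).h

theorem KzL.up {X : ℤ → LM A} (K : KzL X) (Y : RM A) (n : ℤ) (h0 : PF A (tB (X n) Y))
    (h1 : PF A (tB (X (n + 1)) Y)) : PF A (tB (X (n + 1 + 1)) Y) :=
  PF.ses1 (tL (K.f n) Y) (tL (K.g (n + 1)) Y) (H36.NX.ses_tensR (K.ses n) Y.N) h0
    (PF_prodL _ _ Y h1 h1)

theorem KzL.down {X : ℤ → LM A} (K : KzL X) (Y : RM A) (n : ℤ) (h1 : PF A (tB (X (n + 1)) Y))
    (h2 : PF A (tB (X (n + 1 + 1)) Y)) : PF A (tB (X n) Y) :=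
  PF.ses3 (tL (K.f n) Y) (tL (K.g (n + 1)) Y) (H36.NX.ses_tensR (K.ses n) Y.N)
    (PF_prodL _ _ Y h1 h1) h2

theorem KzR.up {Y : ℤ → RM A} (K : KzR Y) (X : LM A) (n : ℤ) (h0 : PF A (tB X (Y n)))
    (h1 : PF A (tB X (Y (n + 1)))) : PF A (tB X (Y (n + 1 + 1))) :=
  PF.ses1 (tR X (K.f n)) (tR X (K.g (n + 1))) (H36.NX.ses_tensL (K.ses n) X.N) h0
    (PF_prodR X _ _ h1 h1)

theorem KzR.down {Y : ℤ → RM A} (K : KzR Y) (X : LM A) (n : ℤ) (h1 : PF A (tB X (Y (n + 1))))
    (h2 : PF A (tB X (Y (n + 1 + 1)))) : PF A (tB X (Y n)) :=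
  PF.ses3 (tR X (K.f n)) (tR X (K.g (n + 1))) (H36.NX.ses_tensL (K.ses n) X.N)
    (PF_prodR X _ _ h1 h1) h2

/-- two-sided induction with two base cases -/
theorem int_two {P : ℤ → Prop} (a : ℤ) (h0 : P a) (h1 : P (a + 1))
    (up : ∀ n, P n → P (n + 1) → P (n + 1 + 1)) (down : ∀ n, P (n + 1) → P (n + 1 + 1) → P n)
    (n : ℤ) : P n := by
  have key : P n ∧ P (n + 1) := by
    refine Int.inductionOn' (motive := fun n => P n ∧ P (n + 1)) n a ⟨h0, h1⟩ ?_ ?_
    · intro m _ h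
      exact ⟨h.2, up m h.1 h.2⟩
    · intro m _ h
      obtain ⟨j, rfl⟩ : ∃ j, m = j + 1 := ⟨m - 1, by ring⟩
      rw [add_sub_cancel_right]
      exact ⟨down j h.1 h.2, h.1⟩
  exact key.1

theorem KzL.all {X : ℤ → LM A} (K : KzL X) (Y : RM A) (a : ℤ) (h0 : PF A (tB (X a) Y))
    (h1 : PF A (tB (X (a + 1)) Y)) (n : ℤ) : PF A (tB (X n) Y) :=
  int_two (P := fun n => PF A (tB (X n) Y)) a h0 h1 (K.up Y) (K.down Y) n

theorem KzR.all {Y : ℤ → RM A} (K : KzR Y) (X : LM A) (a : ℤ) (h0 : PF A (tB X (Y a)))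
    (h1 : PF A (tB X (Y (a + 1)))) (n : ℤ) : PF A (tB X (Y n)) :=
  int_two (P := fun n => PF A (tB X (Y n))) a h0 h1 (K.up X) (K.down X) n

/-- **the Koszul induction** -/
theorem PF_grid {X : ℤ → LM A} {Y : ℤ → RM A} (K : KzL X) (K' : KzR Y) (a b : ℤ)
    (h : ∀ m n : ℤ, (m = a ∨ m = a + 1) → (n = b ∨ n = b + 1) → PF A (tB (X m) (Y n)))
    (m n : ℤ) : PF A (tB (X m) (Y n)) :=
  K.all (Y n) a
    (K'.all (X a) b (h a b (Or.inl rfl) (Or.inl rfl)) (h a (b + 1) (Or.inl rfl) (Or.inr rfl)) n)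
    (K'.all (X (a + 1)) b (h (a + 1) b (Or.inr rfl) (Or.inl rfl))
      (h (a + 1) (b + 1) (Or.inr rfl) (Or.inr rfl)) n) m

end Ses

end EE
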